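import Pool.Agent.Helper47.UKM.Statement
import Pool.Agent.Helper29.CPB.Graded
import Pool.Agent.Helper15.PF.Main
import Pool.Agent.Helper17.Sign.Traces

/-!
# The sign conjecture for the generic fibre of an arithmetic family
-/

set_option linter.unusedSectionVars false

namespace Pool.Agent.Helper47.UKM

open Pool.Agent.Helper29.CPB Pool.Agent.Helper15.PF Polynomial

universe u v

section Linear

variable {F : Type u} [Field F] {V : Type v} [AddCommGroup V] [Module F V]

lemma coe_restr {p f : Module.End F V} (hp : p * p = p) (hc : p * f = f * p)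
    (x : LinearMap.range p) : ((restr p f x : LinearMap.range p) : V) = f x := by
  obtain ⟨y, hy⟩ := x.2
  have h1 : p (x : V) = x := by rw [← hy, ← Module.End.mul_apply, hp]
  show p (f (x : V)) = f x
  rw [← Module.End.mul_apply, hc, Module.End.mul_apply, h1]

lemma comm_pow {p f : Module.End F V} (hc : p * f = f * p) (n : ℕ) : p * f ^ n = f ^ n * p :=
  (Commute.pow_right (show Commute p f from hc) n)

lemma restr_pow {p f : Module.End F V} (hp : p * p = p) (hc : p * f = f * p) (n : ℕ) :
    restr p f ^ n = restr p (f ^ n) := by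
  induction n with
  | zero =>
    ext x
    rw [pow_zero, pow_zero, Module.End.one_apply, coe_restr hp (by rw [mul_one, one_mul]),
      Module.End.one_apply]
  | succ n ih =>
    ext x
    rw [pow_succ', Module.End.mul_apply, coe_restr hp hc, ih, coe_restr hp (comm_pow hc n),
      coe_restr hp (comm_pow hc (n + 1)), pow_succ', Module.End.mul_apply]

lemma coe_aeval_restr {p f : Module.End F V} (hp : p * p = p) (hc : p * f = f * p) (q : F[X])
    (x : LinearMap.range p) :
    ((aeval (restr p f) q x : LinearMap.range p) : V) = aeval f q (x : V) := by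
  induction q using Polynomial.induction_on' with
  | add a b ha hb =>
    rw [map_add, map_add, LinearMap.add_apply, LinearMap.add_apply, Submodule.coe_add, ha, hb]
  | monomial n a =>
    rw [aeval_monomial, aeval_monomial, restr_pow hp hc, Module.End.mul_apply,
      Module.End.mul_apply, Module.algebraMap_end_apply, Module.algebraMap_end_apply,
      Submodule.coe_smul, coe_restr hp (comm_pow hc n)]

lemma trace_restr [FiniteDimensional F V] (p g : Module.End F V) :
    LinearMap.trace F _ (restr p g) = LinearMap.trace F V (g * p) := by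
  unfold restr
  rw [LinearMap.trace_comp_comm']
  rfl

end Linear

variable {F : Type u} [Field F] [CharZero F]

section proj

variable (X : Variety.{u, v} F)

/-- the projector onto the even cohomology -/
noncomputable def ev : Module.End F X.H :=
  ∑ i ∈ (Finset.Icc (0 : ℤ) (2 * X.dim)).filter Even, X.π i

/-- the projector onto the odd cohomology -/
noncomputable def od : Module.End F X.H :=
  ∑ i ∈ (Finset.Icc (0 : ℤ) (2 * X.dim)).filter Odd, X.π i

lemma ev_apply {i : ℤ} {x : X.H} (hx : X.π i x = x) : ev X x = if Even i then x else 0 :=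
  X.evenPart_apply hx

lemma ev_add_od : ev X + od X = 1 := by
  rw [← X.π_sum, ← Finset.sum_filter_add_sum_filter_not (Finset.Icc (0 : ℤ) (2 * X.dim)) Even]
  congr 1
  unfold od
  congr 1
  ext i
  simp only [Finset.mem_filter, Int.not_even_iff_odd]

lemma od_apply {i : ℤ} {x : X.H} (hx : X.π i x = x) : od X x = if Even i then 0 else x := by
  have h1 := congrArg (fun g => g x) (ev_add_od X)
  simp only [LinearMap.add_apply, Module.End.one_apply, ev_apply X hx] at h1
  split_ifs at h1 ⊢ with h
  · simpa using h1
  · simpa using h1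

lemma ev_homog {i : ℤ} {x : X.H} (hx : X.π i x = x) : X.π i (ev X x) = ev X x := by
  rw [ev_apply X hx]
  split_ifs
  · exact hx
  · rw [map_zero]

lemma od_homog {i : ℤ} {x : X.H} (hx : X.π i x = x) : X.π i (od X x) = od X x := by
  rw [od_apply X hx]
  split_ifs
  · rw [map_zero]
  · exact hx

lemma ev_idem : ev X * ev X = ev X := by
  apply X.ext_homog
  intro i x hx
  rw [Module.End.mul_apply, ev_apply X (ev_homog X hx), ev_apply X hx]
  split_ifs <;> rfl

lemma od_idem : od X * od X = od X := by
  apply X.ext_homog
  intro i x hx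
  rw [Module.End.mul_apply, od_apply X (od_homog X hx), od_apply X hx]
  split_ifs <;> rfl

lemma ev_comm {f : Module.End F X.H} (hf : X.alg 0 f) : ev X * f = f * ev X := by
  apply X.ext_homog
  intro i x hx
  rw [Module.End.mul_apply, Module.End.mul_apply, ev_apply X hx,
    ev_apply X (X.corr_homog (show f ∈ X.corr 0 from hf) (i := i) (j := i) (by ring) hx)]
  split_ifs
  · rfl
  · rw [map_zero]

lemma od_comm {f : Module.End F X.H} (hf : X.alg 0 f) : od X * f = f * od X := by
  apply X.ext_homog
  intro i x hx
  rw [Module.End.mul_apply, Module.End.mul_apply, od_apply X hx,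
    od_apply X (X.corr_homog (show f ∈ X.corr 0 from hf) (i := i) (j := i) (by ring) hx)]
  split_ifs
  · rw [map_zero]
  · rfl

lemma ev_sub_od : ev X - od X = parity X.dim X.π := by
  apply X.ext_homog
  intro i x hx
  have h1 : parity X.dim X.π x = ((-1 : F) ^ i.natAbs) • x := X.sgn_apply hx
  rw [LinearMap.sub_apply, ev_apply X hx, od_apply X hx, h1]
  split_ifs with h
  · rw [sub_zero, (Int.natAbs_even.mpr h).neg_one_pow, one_smul]
  · rw [zero_sub, (Int.natAbs_odd.mpr (Int.not_even_iff_odd.mp h)).neg_one_pow, neg_smul,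
      one_smul]

end proj

/-- A correspondence separating the even and the odd cohomology gives the sign conjecture. -/
theorem cplus_of_separates {X : Variety.{u, v} F} {f : Module.End F X.H} (hf : X.alg 0 f)
    (hs : Separates X f) : X.CPlus := by
  have he := ev_comm X hf
  have ho := od_comm X hf
  obtain ⟨p, hp1, hp2⟩ := Pool.Agent.Helper17.Sign.exists_polynomial (restr (ev X) f)
    (restr (od X) f) hs (by
      intro n _
      obtain ⟨q, hq⟩ := X.cycles.rat (f ^ n) (X.corr_pow_zero (f := f) hf n)
      refine ⟨q, ?_⟩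
      rw [restr_pow (ev_idem X) he, restr_pow (od_idem X) ho, trace_restr, trace_restr, ← map_sub,
        ← mul_sub, ev_sub_od]
      exact hq)
  have h1 : ev X = aeval f (p.map (algebraMap ℚ F)) := by
    apply X.ext_homog
    intro i x hx
    have h2 : x = ev X x + od X x := by
      rw [← LinearMap.add_apply, ev_add_od, Module.End.one_apply]
    have h3 : aeval f (p.map (algebraMap ℚ F)) (ev X x) = ev X x := by
      have := coe_aeval_restr (ev_idem X) he (p.map (algebraMap ℚ F))
        ⟨ev X x, LinearMap.mem_range_self _ _⟩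
      rw [hp1, Module.End.one_apply] at this
      exact this.symm
    have h4 : aeval f (p.map (algebraMap ℚ F)) (od X x) = 0 := by
      have := coe_aeval_restr (od_idem X) ho (p.map (algebraMap ℚ F))
        ⟨od X x, LinearMap.mem_range_self _ _⟩
      rw [hp2, LinearMap.zero_apply] at this
      exact this.symm
    conv_rhs => rw [h2, map_add, h3, h4, add_zero]
  show X.alg 0 (ev X)
  rw [h1]
  exact X.corr_aeval (f := f) hf p

/-- The even projector separates. -/
theorem separates_ev {X : Variety.{u, v} F} (N : ℕ) (hN : 1 ≤ N) :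
    Separates X ((N : F) • ev X) := by
  have hN0 : (N : F) ≠ 0 := by exact_mod_cast (by omega : N ≠ 0)
  have hce : ev X * ((N : F) • ev X) = ((N : F) • ev X) * ev X := by
    rw [mul_smul_comm, smul_mul_assoc]
  have hco : od X * ((N : F) • ev X) = ((N : F) • ev X) * od X := by
    have h1 : od X = 1 - ev X := eq_sub_of_add_eq' (ev_add_od X)
    rw [h1, sub_mul, mul_sub, one_mul, mul_one, hce]
  have h1 : restr (ev X) ((N : F) • ev X) = (N : F) • 1 := by
    ext x
    rw [coe_restr (ev_idem X) hce]
    obtain ⟨y, hy⟩ := x.2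
    rw [LinearMap.smul_apply, LinearMap.smul_apply, Module.End.one_apply, Submodule.coe_smul]
    congr 1
    rw [← hy, ← Module.End.mul_apply, ev_idem]
  have h2 : restr (od X) ((N : F) • ev X) = 0 := by
    ext x
    rw [coe_restr (od_idem X) hco]
    obtain ⟨y, hy⟩ := x.2
    rw [LinearMap.smul_apply, LinearMap.zero_apply, ← hy, Submodule.coe_zero]
    have h3 : ev X (od X y) = 0 := by
      have h4 : ev X * od X = 0 := by
        have h5 : od X = 1 - ev X := eq_sub_of_add_eq' (ev_add_od X)
        rw [h5, mul_sub, mul_one, ev_idem, sub_self]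
      rw [← Module.End.mul_apply, h4, LinearMap.zero_apply]
    rw [h3, smul_zero]
  show IsCoprime (restr (ev X) ((N : F) • ev X)).charpoly (restr (od X) ((N : F) • ev X)).charpoly
  rw [h1, h2]
  have h3 : ((N : F) • (1 : Module.End F (LinearMap.range (ev X)))).charpoly =
      (Polynomial.X - C (N : F)) ^ Module.finrank F (LinearMap.range (ev X)) := by
    rw [LinearMap.charpoly, map_smul, LinearMap.toMatrix_one, ← Matrix.diagonal_one,
      ← Matrix.diagonal_smul, Matrix.charpoly_diagonal]
    simp [Module.finrank_eq_card_chooseBasisIndex]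
  have h4 : (0 : Module.End F (LinearMap.range (od X))).charpoly =
      Polynomial.X ^ Module.finrank F (LinearMap.range (od X)) := by
    rw [LinearMap.charpoly_eq_X_pow_iff]
    intro m; exact ⟨1, by simp⟩
  rw [h3, h4]
  apply IsCoprime.pow
  refine ⟨-C (N : F)⁻¹, C (N : F)⁻¹, ?_⟩
  have h5 : C (N : F)⁻¹ * C (N : F) = 1 := by rw [← C_mul, inv_mul_cancel₀ hN0, C_1]
  linear_combination h5

/-- The sign conjecture is compatible with extensions of the base field. -/
theorem cplus_descent {X₀ X : Variety.{u, v} F} (T : Descent X₀ X) (h : X₀.CPlus) : X.CPlus := by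
  have hint : Intertwines T.e (ev X) (ev X₀) := by
    intro x
    unfold ev
    rw [LinearMap.sum_apply, LinearMap.sum_apply, map_sum, T.same.dim]
    exact Finset.sum_congr rfl fun i _ => T.same.deg i x
  obtain ⟨f', hf', m, σ, τ, hm, hστ, hmean⟩ := T.mean _ _ _ h hint
  have hterm : ∀ a, T.ρ (σ a) * ev X * T.ρ (τ a) = ev X := by
    intro a
    have h1 : ev X * T.ρ (τ a) = T.ρ (τ a) * ev X := by
      ext x
      rw [Module.End.mul_apply, Module.End.mul_apply]
      unfold ev
      rw [LinearMap.sum_apply, LinearMap.sum_apply, map_sum]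
      exact Finset.sum_congr rfl fun i _ => (T.action.comm_π (τ a) i x).symm
    rw [mul_assoc, h1, ← mul_assoc, hστ, one_mul]
  have hm0 : (m : F) ≠ 0 := by exact_mod_cast (by omega : m ≠ 0)
  have h1 : (m : F) • f' = (m : F) • ev X := by
    rw [hmean, Finset.sum_congr rfl fun a _ => hterm a, Finset.sum_const, Finset.card_univ,
      Fintype.card_fin, ← Nat.cast_smul_eq_nsmul F]
  have h2 : f' = ev X := smul_right_injective _ hm0 h1
  rw [h2] at hf'
  exact hf'

/-- Over a finite field the parity is separated, with no bound for the degree. -/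
theorem ArithmeticFamily.sep {S : Variety.{u, v} F} (A : ArithmeticFamily S) (t : A.T) :
    ∃ D, A.Sep D t := by
  obtain ⟨N, D, hN, h⟩ := A.bdd_of_alg t _ (A.katzMessing t)
  exact ⟨D, _, h, separates_ev N hN⟩

/-- **Uniform Katz–Messing.** The sign conjecture for the generic fibre means that the parity is
separated on the fibres over the closed points by correspondences of bounded degree. -/
theorem ArithmeticFamily.cplus_tfae {S : Variety.{u, v} F} (A : ArithmeticFamily S) :
    [S.CPlus, ∃ D, ∀ t, A.Sep D t, ∃ D, Dense {t | A.Sep D t}].TFAE := by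
  tfae_have 1 → 2 := by
    intro h
    obtain ⟨N, D, hN, hD⟩ := A.closure _ h
    refine ⟨D, fun t => ⟨_, hD t (ev (A.fibre t)) ?_, separates_ev N hN⟩⟩
    intro x
    unfold ev
    rw [LinearMap.sum_apply, LinearMap.sum_apply, map_sum, (A.same t).dim]
    exact Finset.sum_congr rfl fun i _ => (A.same t).deg i x
  tfae_have 2 → 3 := by
    rintro ⟨D, h⟩
    refine ⟨D, ?_⟩
    have : {t | A.Sep D t} = Set.univ := Set.eq_univ_of_forall h
    rw [this]
    exact dense_univ
  tfae_have 3 → 1 := by
    rintro ⟨D, h⟩
    obtain ⟨n, C, P, Q, hC, hb, hg⟩ := A.hilbert D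
    classical
    obtain ⟨i, hi, hPQ⟩ : ∃ i, C i = Set.univ ∧ IsCoprime (P i) (Q i) := by
      by_contra hcon
      push Not at hcon
      have h1 : (Set.univ : Set A.T) ⊆ ⋃₀ (((Finset.univ.filter fun i => IsCoprime (P i) (Q i)).image
          C : Finset (Set A.T)) : Set (Set A.T)) := by
        have hcl : IsClosed (⋃₀ (((Finset.univ.filter fun i => IsCoprime (P i) (Q i)).image
            C : Finset (Set A.T)) : Set (Set A.T))) := by
          rw [Set.sUnion_eq_biUnion]
          refine Set.Finite.isClosed_biUnion (Finset.finite_toSet _) ?_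
          intro s hs
          obtain ⟨i, _, rfl⟩ := Finset.mem_image.mp (Finset.mem_coe.mp hs)
          exact hC i
        rw [← h.closure_eq]
        refine hcl.closure_subset_iff.mpr ?_
        rintro t ⟨f, hf, hs⟩
        obtain ⟨i, hi, hP, hQ⟩ := hb t f hf
        refine ⟨C i, ?_, hi⟩
        refine Finset.mem_coe.mpr (Finset.mem_image.mpr ⟨i, ?_, rfl⟩)
        refine Finset.mem_filter.mpr ⟨Finset.mem_univ i, ?_⟩
        rw [← hP, ← hQ]
        exact hs
      obtain ⟨s, hs, hsub⟩ := (isIrreducible_iff_sUnion_isClosed.mp A.irreducible) _ (by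
        intro s hs
        obtain ⟨i, _, rfl⟩ := Finset.mem_image.mp hs
        exact hC i) h1
      obtain ⟨i, hi, rfl⟩ := Finset.mem_image.mp hs
      exact hcon i (Set.univ_subset_iff.mp hsub) (Finset.mem_filter.mp hi).2
    obtain ⟨f, hf, hP, hQ⟩ := hg i hi
    refine cplus_descent A.descent (cplus_of_separates hf ?_)
    show IsCoprime (evenPol A.geom f) (oddPol A.geom f)
    rw [hP, hQ]
    exact hPQ
  tfae_finish

end Pool.Agent.Helper47.UKM
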