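import Pool.Agent.Helper15.PF.Statement

/-!
# Correspondences of bounded degree on the fibres of an arithmetic family

Additions to `Pool.Agent.Helper29.CPB.Statement` and `Pool.Agent.Helper15.PF.Statement`.
-/

namespace Pool.Agent.Helper47.UKM

open Pool.Agent.Helper29.CPB Pool.Agent.Helper15.PF Polynomial

universe u v

variable {F : Type u} [Field F]

/-- The restriction of the operator `f` to the image of the projector `p` (for `f` commuting with
`p`; in general followed by `p`). -/
noncomputable def restr {V : Type v} [AddCommGroup V] [Module F V] (p f : Module.End F V) :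
    Module.End F (LinearMap.range p) :=
  p.rangeRestrict ∘ₗ f ∘ₗ (LinearMap.range p).subtype

/-- The characteristic polynomial of `f` on the even cohomology of `X`. -/
noncomputable def evenPol (X : Variety.{u, v} F) (f : Module.End F X.H) : F[X] :=
  (restr (∑ i ∈ (Finset.Icc (0 : ℤ) (2 * X.dim)).filter Even, X.π i) f).charpoly

/-- The characteristic polynomial of `f` on the odd cohomology of `X`. -/
noncomputable def oddPol (X : Variety.{u, v} F) (f : Module.End F X.H) : F[X] :=
  (restr (∑ i ∈ (Finset.Icc (0 : ℤ) (2 * X.dim)).filter Odd, X.π i) f).charpoly

/-- `f` separates the even from the odd cohomology: its characteristic polynomials on them are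
coprime. (For `X` over a finite field the Frobenius correspondence has this property.) -/
def Separates (X : Variety.{u, v} F) (f : Module.End F X.H) : Prop :=
  IsCoprime (evenPol X f) (oddPol X f)

/-- A smooth projective family with geometrically connected fibres over an irreducible base `𝒯` of
finite type over `ℤ` (in which `ℓ` is invertible, for the `ℓ`-adic cohomology), and its generic
fibre `S`, over a perfect field `K` algebraic over the function field of `𝒯`. -/
structure ArithmeticFamily (S : Variety.{u, v} F) where
  /-- the closed points of `𝒯`, with the Zariski topology; their residue fields are finite -/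
  T : Type v
  [top : TopologicalSpace T]
  irreducible : IsIrreducible (Set.univ : Set T)
  /-- the fibre over `t`, over an algebraic closure of the residue field -/
  fibre : T → Variety.{u, v} F
  /-- the specialisation isomorphism in cohomology -/
  sp : ∀ t, S.H →ₗ[F] (fibre t).H
  same : ∀ t, SameCohomology S (fibre t) (sp t)
  /-- `C⁺` is known for the fibres (Katz–Messing) -/
  katzMessing : ∀ t, (fibre t).CPlus
  /-- the fibre over an algebraic closure of `K` -/
  geom : Variety.{u, v} F
  descent : Descent geom S
  /-- `bdd t D f`: `f` is given by `Γ - Γ'`, where `Γ` and `Γ'` are effective cycles of degree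
  `≤ D` on the square of the fibre over `t` -/
  bdd : ∀ t, ℕ → Module.End F (fibre t).H → Prop
  alg_of_bdd : ∀ t D f, bdd t D f → (fibre t).alg 0 f
  bdd_of_alg : ∀ t f, (fibre t).alg 0 f → ∃ N D : ℕ, 1 ≤ N ∧ bdd t D ((N : F) • f)
  /-- a cycle on the generic fibre specialises to cycles of the same degree on all fibres -/
  closure : ∀ f, S.alg 0 f → ∃ N D : ℕ, 1 ≤ N ∧
    ∀ t f', Intertwines (sp t) f f' → bdd t D ((N : F) • f')
  /-- The pairs of effective cycles of degree `≤ D` are parametrised by finitely many connected
  schemes, projective over `𝒯` (Hilbert schemes), with images `C i`. The characteristic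
  polynomials of the corresponding operators are constant on each of them; if its image is all
  of `𝒯`, there is such a pair over an algebraic closure of `K`. -/
  hilbert : ∀ D, ∃ (n : ℕ) (C : Fin n → Set T) (P Q : Fin n → F[X]),
    (∀ i, IsClosed (C i)) ∧
    (∀ t f, bdd t D f → ∃ i, t ∈ C i ∧ evenPol (fibre t) f = P i ∧ oddPol (fibre t) f = Q i) ∧
    ∀ i, C i = Set.univ → ∃ f, geom.alg 0 f ∧ evenPol geom f = P i ∧ oddPol geom f = Q i

attribute [instance] ArithmeticFamily.top

/-- The even and the odd cohomology of the fibre over `t` are separated by a correspondence of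
degree `≤ D`. -/
def ArithmeticFamily.Sep {S : Variety.{u, v} F} (A : ArithmeticFamily S) (D : ℕ) (t : A.T) : Prop :=
  ∃ f, A.bdd t D f ∧ Separates (A.fibre t) f

/-- The smooth projective varieties over the perfect fields of one characteristic, together with
the arithmetic families: for `X` over the algebraic closure of the prime field, the smooth members
of `|mL|` on `X × X` form an arithmetic family. -/
structure ArithmeticFields (F : Type u) [Field F] extends Fields.{u, v} F where
  models : ∀ X ∈ closed 0, 1 ≤ X.dim → ∃ (Z : Variety.{u, v} F) (μ : X.H → X.H → Z.H),
    SelfProduct X Z μ ∧ ∃ S ∈ all, Nonempty (GenericSection Z S 1) ∧ Nonempty (ArithmeticFamily S)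

end Pool.Agent.Helper47.UKM
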